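import Mathlib

set_option autoImplicit false

namespace Pool.Agent.H798Z.Much

open Filter Topology

/-- Codes for oracle computations. -/
inductive OC : Type
  | zero | succ | left | right | orc
  | pair (a b : OC) | comp (a b : OC) | prec (a b : OC) | rfind (a : OC)

def OC.enc : OC → ℕ
  | .zero => Nat.pair 0 0
  | .succ => Nat.pair 1 0
  | .left => Nat.pair 2 0
  | .right => Nat.pair 3 0
  | .orc => Nat.pair 4 0
  | .pair a b => Nat.pair 5 (Nat.pair a.enc b.enc)
  | .comp a b => Nat.pair 6 (Nat.pair a.enc b.enc)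
  | .prec a b => Nat.pair 7 (Nat.pair a.enc b.enc)
  | .rfind a => Nat.pair 8 a.enc

theorem OC.enc_inj : ∀ a b : OC, a.enc = b.enc → a = b := by
  intro a
  induction a with
  | zero => intro b h; cases b <;> simp [OC.enc, Nat.pair_eq_pair] at h ⊢
  | succ => intro b h; cases b <;> simp [OC.enc, Nat.pair_eq_pair] at h ⊢
  | left => intro b h; cases b <;> simp [OC.enc, Nat.pair_eq_pair] at h ⊢
  | right => intro b h; cases b <;> simp [OC.enc, Nat.pair_eq_pair] at h ⊢
  | orc => intro b h; cases b <;> simp [OC.enc, Nat.pair_eq_pair] at h ⊢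
  | pair a1 a2 ih1 ih2 =>
    intro b h
    cases b <;> simp [OC.enc, Nat.pair_eq_pair] at h ⊢
    exact ⟨ih1 _ h.1, ih2 _ h.2⟩
  | comp a1 a2 ih1 ih2 =>
    intro b h
    cases b <;> simp [OC.enc, Nat.pair_eq_pair] at h ⊢
    exact ⟨ih1 _ h.1, ih2 _ h.2⟩
  | prec a1 a2 ih1 ih2 =>
    intro b h
    cases b <;> simp [OC.enc, Nat.pair_eq_pair] at h ⊢
    exact ⟨ih1 _ h.1, ih2 _ h.2⟩
  | rfind a1 ih1 =>
    intro b h
    cases b <;> simp [OC.enc, Nat.pair_eq_pair] at h ⊢
    exact ih1 _ h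

instance : Countable OC := ⟨⟨OC.enc, fun a b h => OC.enc_inj a b h⟩⟩

instance : Nonempty OC := ⟨OC.zero⟩

/-- Evaluation of a code relative to an oracle. -/
def ev (g : ℕ →. ℕ) : OC → ℕ →. ℕ
  | .zero => fun _ => 0
  | .succ => Nat.succ
  | .left => fun n => (Nat.unpair n).1
  | .right => fun n => (Nat.unpair n).2
  | .orc => g
  | .pair a b => fun n => (Nat.pair <$> ev g a n <*> ev g b n)
  | .comp a b => fun n => ev g b n >>= ev g a
  | .prec a b => fun p =>
        let (x, n) := Nat.unpair p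
        n.rec (ev g a x) fun y IH => do
          let i ← IH
          ev g b (Nat.pair x (Nat.pair y i))
  | .rfind a => fun x => Nat.rfind fun n => (fun m => m = 0) <$> ev g a (Nat.pair x n)

theorem exists_code {g f : ℕ →. ℕ} (h : Nat.RecursiveIn {g} f) : ∃ e : OC, ev g e = f := by
  induction h with
  | zero => exact ⟨.zero, rfl⟩
  | succ => exact ⟨.succ, rfl⟩
  | left => exact ⟨.left, rfl⟩
  | right => exact ⟨.right, rfl⟩
  | oracle g' hg => exact ⟨.orc, (Set.mem_singleton_iff.1 hg).symm⟩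
  | pair _ _ ih1 ih2 =>
    obtain ⟨a, rfl⟩ := ih1
    obtain ⟨b, rfl⟩ := ih2
    exact ⟨.pair a b, rfl⟩
  | comp _ _ ih1 ih2 =>
    obtain ⟨a, rfl⟩ := ih1
    obtain ⟨b, rfl⟩ := ih2
    exact ⟨.comp a b, rfl⟩
  | prec _ _ ih1 ih2 =>
    obtain ⟨a, rfl⟩ := ih1
    obtain ⟨b, rfl⟩ := ih2
    exact ⟨.prec a b, rfl⟩
  | rfind _ ih1 =>
    obtain ⟨a, rfl⟩ := ih1
    exact ⟨.rfind a, rfl⟩

/-- The oracle given by a total function. -/
def orcN (h : ℕ → ℕ) : ℕ →. ℕ := fun n => Part.some (h n)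

theorem ev_use (h : ℕ → ℕ) (e : OC) :
    ∀ x y, y ∈ ev (orcN h) e x → ∀ᶠ h' in 𝓝 h, y ∈ ev (orcN h') e x := by
  induction e with
  | zero => intro x y hy; exact Eventually.of_forall fun _ => hy
  | succ => intro x y hy; exact Eventually.of_forall fun _ => hy
  | left => intro x y hy; exact Eventually.of_forall fun _ => hy
  | right => intro x y hy; exact Eventually.of_forall fun _ => hy
  | orc =>
    intro x y hy
    have h1 : ∀ᶠ h' in 𝓝 h, h' x = h x := by
      have : Continuous fun h' : ℕ → ℕ => h' x := continuous_apply x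
      exact this.continuousAt.eventually (p := fun b => b = h x) (by simp [nhds_discrete])
    filter_upwards [h1] with h' hh'
    change y ∈ Part.some (h' x)
    rw [hh']
    exact hy
  | pair a b iha ihb =>
    intro x y hy
    simp only [ev, Seq.seq, Part.map_eq_map, Part.mem_bind_iff,
      Part.mem_map_iff] at hy ⊢
    obtain ⟨f, ⟨u, hu, rfl⟩, v, hv, rfl⟩ := hy
    filter_upwards [iha x u hu, ihb x v hv] with h' h1 h2
    exact ⟨_, ⟨u, h1, rfl⟩, v, h2, rfl⟩
  | comp a b iha ihb =>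
    intro x y hy
    simp only [ev, Part.bind_eq_bind, Part.mem_bind_iff] at hy ⊢
    obtain ⟨u, hu, hy⟩ := hy
    filter_upwards [iha u y hy, ihb x u hu] with h' h1 h2
    exact ⟨u, h2, h1⟩
  | prec a b iha ihb =>
    intro p
    simp only [ev]
    generalize (Nat.unpair p).1 = x
    generalize (Nat.unpair p).2 = n
    induction n with
    | zero => intro y hy; exact iha x y hy
    | succ n ihn =>
      intro y hy
      simp only [Part.bind_eq_bind, Part.mem_bind_iff] at hy ⊢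
      obtain ⟨u, hu, hy⟩ := hy
      filter_upwards [ihn u hu, ihb _ y hy] with h' h1 h2
      exact ⟨u, h1, h2⟩
  | rfind a iha =>
    intro x y hy
    simp only [ev, Nat.mem_rfind, Part.map_eq_map, Part.mem_map_iff] at hy ⊢
    obtain ⟨⟨u, hu, hu0⟩, hlt⟩ := hy
    have h2 : ∀ᶠ h' in 𝓝 h, ∀ m ∈ Finset.range y,
        ∃ v ∈ ev (orcN h') a (Nat.pair x m), decide (v = 0) = false := by
      rw [Filter.eventually_all_finset]
      intro m hm
      obtain ⟨v, hv, hv0⟩ := hlt (Finset.mem_range.1 hm)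
      filter_upwards [iha _ v hv] with h' h1
      exact ⟨v, h1, hv0⟩
    filter_upwards [iha _ u hu, h2] with h' h1 h3
    exact ⟨⟨u, h1, hu0⟩, fun {m} hm => h3 m (Finset.mem_range.2 hm)⟩

theorem nhds_bound {h : ℕ → ℕ} {P : (ℕ → ℕ) → Prop} (hP : ∀ᶠ h' in 𝓝 h, P h') :
    ∃ N, ∀ h' : ℕ → ℕ, (∀ i < N, h' i = h i) → P h' := by
  rw [nhds_pi] at hP
  obtain ⟨I, t, ht, hI⟩ := Filter.mem_pi'.1 hP
  refine ⟨I.sup id + 1, fun h' hh' => hI fun i hi => ?_⟩
  rw [hh' i (Nat.lt_succ_of_le (Finset.le_sup (f := id) hi))]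
  exact mem_of_mem_nhds (ht i)

end Pool.Agent.H798Z.Much
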