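import Mathlib
import Pool.Agent.H798Z.MuchOracle

set_option autoImplicit false

namespace Pool.Agent.H798Z.Much

open Filter Topology

/-- A node: a length and a function read below that length. -/
abbrev Node := ℕ × (ℕ → ℕ)

/-- `g` passes through the node `p`. -/
def Thru (g : ℕ → ℕ) (p : Node) : Prop := ∀ i < p.1, g i = p.2 i

/-- The code `e` computes the total function `w` from `g`. -/
def Comp (e : OC) (g w : ℕ → ℕ) : Prop := ∀ m, w m ∈ ev (orcN g) e m

theorem exists_comp {g w : ℕ → ℕ} (h : TuringReducible (PFun.lift w) (PFun.lift g)) :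
    ∃ e, Comp e g w := by
  obtain ⟨e, he⟩ := exists_code (RecursiveIn.iff_nat.1 h)
  refine ⟨e, fun m => ?_⟩
  have : orcN g = PFun.lift g := rfl
  rw [this, he]
  simp [PFun.lift]

theorem comp_unique {e : OC} {g w w' : ℕ → ℕ} (h : Comp e g w) (h' : Comp e g w') : w = w' :=
  funext fun m => Part.mem_unique (h m) (h' m)

theorem countable_cone (g : ℕ → ℕ) : {w | ∃ e, Comp e g w}.Countable := by
  have : {w | ∃ e, Comp e g w} = ⋃ e : OC, {w | Comp e g w} := by
    ext w; simp
  rw [this]
  exact Set.countable_iUnion fun e =>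
    Set.Subsingleton.countable fun w hw w' hw' => comp_unique hw hw'

theorem exists_step (p : Node) (e : OC) (n : ℕ) (z : ℕ → ℕ) :
    ∃ q : Node, p.1 < q.1 ∧ Thru q.2 p ∧ q.2 p.1 = n ∧ ¬ Thru z q ∧
      ∃ u : ℕ → ℕ, ∀ g w, Thru g q → Comp e g w → ∀ m < n, w m = u m := by
  by_cases hA : ∃ g w, Thru g p ∧ g p.1 = n ∧ Comp e g w
  · obtain ⟨g, w, hg, hn, hw⟩ := hA
    have h1 : ∀ᶠ g' in 𝓝 g, ∀ m ∈ Finset.range n, w m ∈ ev (orcN g') e m := by
      rw [Filter.eventually_all_finset]
      intro m _
      exact ev_use g e m (w m) (hw m)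
    obtain ⟨L, hL⟩ := nhds_bound h1
    refine ⟨(max L (p.1 + 1) + 1, Function.update g (max L (p.1 + 1)) (z (max L (p.1 + 1)) + 1)),
      ?_, ?_, ?_, ?_, w, ?_⟩
    · simp only; omega
    · intro i hi
      simp only
      rw [Function.update_of_ne (by omega)]
      exact hg i hi
    · simp only
      rw [Function.update_of_ne (by omega)]
      exact hn
    · intro hz
      have := hz (max L (p.1 + 1)) (by simp)
      simp at this
    · intro g' w' hg' hw' m hm
      have h2 := hL g' (fun i hi => by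
        have := hg' i (by simp only; omega)
        simp only at this
        rw [this, Function.update_of_ne (by omega)]) m (Finset.mem_range.2 hm)
      exact Part.mem_unique (hw' m) h2
  · refine ⟨(p.1 + 2, Function.update (Function.update p.2 p.1 n) (p.1 + 1) (z (p.1 + 1) + 1)),
      ?_, ?_, ?_, ?_, 0, ?_⟩
    · simp
    · intro i hi
      simp only
      rw [Function.update_of_ne (by omega), Function.update_of_ne (by omega)]
    · simp only
      rw [Function.update_of_ne (by omega), Function.update_self]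
    · intro hz
      have := hz (p.1 + 1) (by simp)
      simp at this
    · intro g w hg hw
      exfalso
      refine hA ⟨g, w, fun i hi => ?_, ?_, hw⟩
      · have := hg i (by simp only; omega)
        simp only at this
        rw [this, Function.update_of_ne (by omega), Function.update_of_ne (by omega)]
      · have := hg p.1 (by simp only; omega)
        simp only at this
        rw [this, Function.update_of_ne (by omega), Function.update_self]

/-- The chosen successor node. -/
noncomputable def step (p : Node) (e : OC) (n : ℕ) (z : ℕ → ℕ) : Node :=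
  (exists_step p e n z).choose

theorem step_spec (p : Node) (e : OC) (n : ℕ) (z : ℕ → ℕ) :
    p.1 < (step p e n z).1 ∧ Thru (step p e n z).2 p ∧ (step p e n z).2 p.1 = n ∧
      ¬ Thru z (step p e n z) ∧
      ∃ u : ℕ → ℕ, ∀ g w, Thru g (step p e n z) → Comp e g w → ∀ m < n, w m = u m :=
  (exists_step p e n z).choose_spec

theorem thru_of_step {g : ℕ → ℕ} {p : Node} {e : OC} {n : ℕ} {z : ℕ → ℕ}
    (h : Thru g (step p e n z)) : Thru g p ∧ g p.1 = n := by
  obtain ⟨h1, h2, h3, -⟩ := step_spec p e n z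
  exact ⟨fun i hi => (h i (hi.trans h1)).trans (h2 i hi), (h _ h1).trans h3⟩

/-- A Boolean sequence read as a sequence of naturals. -/
def toN (y : ℕ → Bool) : ℕ → ℕ := fun n => (y n).toNat

theorem toN_inj {a b : Bool} (h : a.toNat = b.toNat) : a = b := by
  cases a <;> cases b <;> simp_all

theorem exists_witness (p : Node) (e : OC) (z : ℕ → ℕ) :
    ∃ x : ℕ → Bool, ∀ Q : Set (ℕ → Bool), IsClosed Q →
      (∀ n, ∃ g, ∃ y ∈ Q, Thru g (step p e n z) ∧ Comp e g (toN y)) → x ∈ Q := by
  have hu : ∀ n, ∃ u : ℕ → ℕ, ∀ g w, Thru g (step p e n z) → Comp e g w → ∀ m < n, w m = u m :=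
    fun n => (step_spec p e n z).2.2.2.2
  choose u hu using hu
  let b : ℕ → ℕ → Bool := fun n m => decide (u n m = 1)
  obtain ⟨x, -, φ, hφ, hx⟩ := isCompact_univ.tendsto_subseq (x := b) (fun _ => Set.mem_univ _)
  refine ⟨x, fun Q hQ h => ?_⟩
  choose g y hy hg hc using h
  refine hQ.mem_of_tendsto (f := fun n => y (φ n)) (b := atTop) ?_
    (Eventually.of_forall fun n => hy _)
  rw [tendsto_pi_nhds] at hx ⊢
  intro m
  refine (hx m).congr' ?_
  filter_upwards [eventually_gt_atTop m] with n hn
  have h1 := hu (φ n) _ _ (hg (φ n)) (hc (φ n)) m (hn.trans_le (hφ.id_le n))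
  simp only [Function.comp, b, ← h1, toN]
  cases y (φ n) m <;> simp

/-- The witness attached to a node. -/
noncomputable def wit (p : Node) (e : OC) (z : ℕ → ℕ) : ℕ → Bool :=
  (exists_witness p e z).choose

theorem exists_surj : ∃ c : ℕ → OC, Function.Surjective c := exists_surjective_nat OC

/-- An enumeration of the codes. -/
noncomputable def code : ℕ → OC := exists_surj.choose

/-- The tree of nodes built from the sequence `z` of points to avoid. -/
noncomputable def T (z : ℕ → ℕ → ℕ) : List ℕ → Node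
  | [] => (0, 0)
  | n :: s => step (T z s) (code s.length) n (z s.length)

theorem T_congr {z z' : ℕ → ℕ → ℕ} (s : List ℕ) (h : ∀ i < s.length, z i = z' i) :
    T z s = T z' s := by
  induction s with
  | nil => rfl
  | cons n s ih =>
    simp only [T]
    rw [ih fun i hi => h i (by simp; omega), h s.length (by simp)]

/-- The points computed by the witnesses of level `l`. -/
def Bad (z : ℕ → ℕ → ℕ) (l : ℕ) : Set (ℕ → ℕ) :=
  ⋃ s : List ℕ, {w | s.length = l ∧ ∃ e, Comp e (toN (wit (T z s) (code l) (z l))) w}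

theorem Bad_countable (z : ℕ → ℕ → ℕ) (l : ℕ) : (Bad z l).Countable :=
  Set.countable_iUnion fun _ => (countable_cone _).mono fun _ hw => hw.2

theorem Bad_congr {z z' : ℕ → ℕ → ℕ} (l : ℕ) (h : ∀ i ≤ l, z i = z' i) : Bad z l = Bad z' l := by
  unfold Bad
  refine Set.iUnion_congr fun s => ?_
  ext w
  simp only [Set.mem_setOf_eq]
  refine and_congr_right fun hs => ?_
  rw [T_congr (z := z) (z' := z') s fun i hi => h i (by omega), h l le_rfl]

theorem exists_closed_off {α : Type} [Nonempty α] (B : (ℕ → α) → ℕ → Set α)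
    (hc : ∀ z l, (B z l).Countable) (hB : ∀ z z' l, (∀ i ≤ l, z i = z' i) → B z l = B z' l) :
    ∃ z : ℕ → α, ∀ l, B z l ⊆ Set.range z := by
  classical
  have h1 : ∀ S : Set α, ∃ f : ℕ → α, S.Countable → S ⊆ Set.range f := by
    intro S
    by_cases hS : S.Countable
    · obtain ⟨f, hf⟩ := Set.countable_iff_exists_subset_range.1 hS
      exact ⟨f, fun _ => hf⟩
    · exact ⟨fun _ => Classical.arbitrary α, fun h => absurd h hS⟩
  choose en hen using h1
  let u : ℕ → ℕ → α := fun l => Nat.rec (fun _ => Classical.arbitrary α)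
    (fun l ul => Function.update ul (l + 1) (en (B ul (Nat.unpair l).1) (Nat.unpair l).2)) l
  have hu : ∀ l, u (l + 1) =
      Function.update (u l) (l + 1) (en (B (u l) (Nat.unpair l).1) (Nat.unpair l).2) :=
    fun l => rfl
  have hz : ∀ l i, i ≤ l → u l i = u i i := by
    intro l
    induction l with
    | zero => intro i hi; obtain rfl := Nat.le_zero.1 hi; rfl
    | succ l ih =>
      intro i hi
      rcases Nat.lt_or_eq_of_le hi with h | rfl
      · rw [hu, Function.update_of_ne (by omega)]
        exact ih i (by omega)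
      · rfl
  refine ⟨fun i => u i i, fun j x hx => ?_⟩
  obtain ⟨i, rfl⟩ := hen _ (hc _ j) hx
  refine ⟨Nat.pair j i + 1, ?_⟩
  simp only
  rw [hu, Function.update_self, Nat.unpair_pair]
  simp only
  rw [hB (u (Nat.pair j i)) (fun i => u i i) j fun k hk =>
    hz _ _ (hk.trans (Nat.left_le_pair j i))]

/-- The index of the level-`l` node that `g` would pass through. -/
noncomputable def idx (z : ℕ → ℕ → ℕ) (g : ℕ → ℕ) : ℕ → List ℕ
  | 0 => []
  | l + 1 => g (T z (idx z g l)).1 :: idx z g l

theorem idx_length (z : ℕ → ℕ → ℕ) (g : ℕ → ℕ) (l : ℕ) : (idx z g l).length = l := by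
  induction l with
  | zero => rfl
  | succ l ih => simp [idx, ih]

theorem idx_loc (z : ℕ → ℕ → ℕ) (g : ℕ → ℕ) (l : ℕ) :
    ∀ᶠ g' in 𝓝 g, idx z g' l = idx z g l := by
  induction l with
  | zero => exact Eventually.of_forall fun _ => rfl
  | succ l ih =>
    have h1 : ∀ᶠ g' in 𝓝 g, g' (T z (idx z g l)).1 = g (T z (idx z g l)).1 := by
      have : Continuous fun h' : ℕ → ℕ => h' (T z (idx z g l)).1 := continuous_apply _
      exact this.continuousAt.eventually (p := fun b => b = g (T z (idx z g l)).1)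
        (by simp [nhds_discrete])
    filter_upwards [ih, h1] with g' h2 h3
    simp only [idx]
    rw [h2, h3]

/-- The closed set. -/
def PP (z : ℕ → ℕ → ℕ) : Set (ℕ → ℕ) := {g | ∀ l, Thru g (T z (idx z g l))}

theorem PP_closed (z : ℕ → ℕ → ℕ) : IsClosed (PP z) := by
  rw [← isOpen_compl_iff, isOpen_iff_eventually]
  intro g hg
  simp only [PP, Set.mem_compl_iff, Set.mem_setOf_eq, not_forall, Thru] at hg ⊢
  obtain ⟨l, i, hi, hne⟩ := hg
  have h1 : ∀ᶠ g' in 𝓝 g, g' i = g i := by
    have : Continuous fun h' : ℕ → ℕ => h' i := continuous_apply _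
    exact this.continuousAt.eventually (p := fun b => b = g i) (by simp [nhds_discrete])
  filter_upwards [idx_loc z g l, h1] with g' h2 h3
  refine ⟨l, i, ?_, ?_⟩
  · rw [h2]; exact hi
  · rw [h2, h3]; exact hne

theorem not_mem_PP (z : ℕ → ℕ → ℕ) (l : ℕ) : z l ∉ PP z := by
  intro h
  have h1 := h (l + 1)
  simp only [idx, T, idx_length] at h1
  exact (step_spec _ _ _ _).2.2.2.1 h1

theorem exists_path (z : ℕ → ℕ → ℕ) (ch : List ℕ → ℕ) :
    ∃ g ∈ PP z, ∀ l, ∃ s : List ℕ, s.length = l ∧ Thru g (T z (ch s :: s)) := by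
  let s : ℕ → List ℕ := fun l => Nat.rec [] (fun _ t => ch t :: t) l
  have hs : ∀ l, s (l + 1) = ch (s l) :: s l := fun l => rfl
  have hlen : ∀ l, (s l).length = l := by
    intro l
    induction l with
    | zero => rfl
    | succ l ih => rw [hs]; simp [ih]
  have hT : ∀ l, T z (s (l + 1)) = step (T z (s l)) (code (s l).length) (ch (s l))
      (z (s l).length) := fun l => rfl
  have hlt : ∀ l, (T z (s l)).1 < (T z (s (l + 1))).1 := fun l => by
    rw [hT]; exact (step_spec _ _ _ _).1
  have hge : ∀ l, l ≤ (T z (s l)).1 := by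
    intro l
    induction l with
    | zero => exact Nat.zero_le _
    | succ l ih => exact Nat.succ_le_of_lt (ih.trans_lt (hlt l))
  have hext : ∀ l k, Thru (T z (s (l + k))).2 (T z (s l)) := by
    intro l k
    induction k with
    | zero => intro i _; rfl
    | succ k ih =>
      intro i hi
      have h1 : (T z (s l)).1 ≤ (T z (s (l + k))).1 :=
        (strictMono_nat_of_lt_succ hlt).monotone (Nat.le_add_right l k)
      have h2 : Thru (T z (s (l + k + 1))).2 (T z (s (l + k))) := by
        rw [hT]; exact (step_spec _ _ _ _).2.1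
      exact (h2 i (hi.trans_le h1)).trans (ih i hi)
  let g : ℕ → ℕ := fun i => (T z (s (i + 1))).2 i
  have hg : ∀ l, Thru g (T z (s l)) := by
    intro l i hi
    have h1 := hext l (i + 1) i hi
    have h2 := hext (i + 1) l i (hge (i + 1))
    rw [add_comm (i + 1) l] at h2
    exact h2.symm.trans h1
  have hidx : ∀ l, idx z g l = s l := by
    intro l
    induction l with
    | zero => rfl
    | succ l ih =>
      simp only [idx]
      rw [ih, hs]
      congr 1
      have := hg (l + 1)
      rw [hT] at this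
      exact (thru_of_step this).2
  exact ⟨g, fun l => by rw [hidx]; exact hg l, fun l => ⟨s l, hlen l, hg (l + 1)⟩⟩

theorem main : ∃ P : Set (ℕ → ℕ), IsClosed P ∧
    ∀ Q : Set (ℕ → Bool), IsClosed Q →
      ¬ ((∀ x ∈ P, ∃ y ∈ Q, ∃ e, Comp e x (toN y)) ∧ (∀ y ∈ Q, ∃ x ∈ P, ∃ e, Comp e (toN y) x)) := by
  obtain ⟨z, hz⟩ := exists_closed_off Bad Bad_countable fun z z' l h => Bad_congr l h
  refine ⟨PP z, PP_closed z, fun Q hQ ⟨h1, h2⟩ => ?_⟩
  have key : ∀ s : List ℕ, ∃ n, ¬ ∃ g, ∃ y ∈ Q, Thru g (T z (n :: s)) ∧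
      Comp (code s.length) g (toN y) := by
    intro s
    by_contra hcon
    push Not at hcon
    have h3 : wit (T z s) (code s.length) (z s.length) ∈ Q :=
      (exists_witness (T z s) (code s.length) (z s.length)).choose_spec Q hQ hcon
    obtain ⟨x, hx, e, he⟩ := h2 _ h3
    obtain ⟨l, rfl⟩ := hz s.length (Set.mem_iUnion.2 ⟨s, rfl, e, he⟩)
    exact not_mem_PP z l hx
  choose ch hch using key
  obtain ⟨g, hg, hp⟩ := exists_path z ch
  obtain ⟨y, hy, e, he⟩ := h1 g hg
  obtain ⟨l, rfl⟩ := exists_surj.choose_spec e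
  obtain ⟨s, rfl, hs⟩ := hp l
  exact hch s ⟨g, y, hy, hs, he⟩

end Pool.Agent.H798Z.Much
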